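import Pool.Agent.U758.GW.Final
import Pool.Agent.NH46.F8.Eight
import Pool.Agent.NH46.F8.Final

set_option autoImplicit false

/-!
# The F-conjecture for divisors given by functions on a finite abelian group

Let `A` be an abelian group and let every mark `i` of `M̄_{0,n}` have a label `w i` in `A`.  A function
`f` on `A` gives the divisor `∑ f(w(S)) δ_S - ∑ f(w i) ψ_i`, where `w(S)` is the sum of the labels in
`S`.  More generally there are `k` heavy marks, the other marks are light, and the coefficient of `δ_S`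
is a function `f X a` of the set `X` of the heavy marks in `S` and of the sum `a` of the labels in `S`
(`labelDivisor`).  The number `n` of marks is arbitrary.  For a light mark `δ_S` changes only through
the sum of the labels, so that there are finitely many parameters for all `n` together if `A` is
finite.  `IsUniversal` says that the degrees on the F-curves are nonnegative for all possible labels of
the four parts; if all these labels occur in partitions of the marks (`Plentiful`), this is the same as
F-nef.

Theorem.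

1. (Criterion, no heavy marks.)  Let `A` be any abelian group and let `f` be bounded and universal.
   The divisors of `f` are nef, for all `n` and all labels with sum zero, if (and only if) they have
   nonnegative degree on the curves that meet the interior for the reduced labels with at least nine
   marks.  Labels are reduced if no proper nonempty subset has sum zero (a minimal zero-sum
   sequence), no two labels are equal and no label is the sum of two others.
2. (Small groups.)  Let `A` be finite, with `|A| ≤ 39, 39, 31, 26, 17, 11, 7, 3` for the number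
   `k = 0, …, 7` of heavy marks; or let `A` be an elementary abelian `2`-group with
   `|A| ≤ 128, 128, 64, 32, 16, 8, 4, 2`.  Then the divisors of all universal functions `f` are nef,
   for all `n` and all labels.  So a divisor of this form with plentiful labels is nef if and only if
   it is F-nef.

The labels are plentiful if there are at least four light marks with each label, or if there are no
heavy marks, all labels are `1` in `ℤ/m` and `n > 3 m`.  So the F-conjecture is true, for example, for
the divisors on `M̄_{0,n}`, `m ∣ n`, whose coefficient at `δ_S` depends only on `|S|` modulo `m ≤ 39`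
(the starting file `InterchangeableMarks` treats symmetric divisors for `n ≤ 80` only); and for seven
heavy marks and any number of light marks, four or more of each of the three labels in `ℤ/3`, if the
coefficient of `δ_S` depends only on the heavy marks in `S` and on the sum of the labels in `S`.

Proof.  For labels `w` let `D(w)` be the degree of the divisor on a fixed curve that meets the
interior.  If `δ` are labels of light marks with sum zero and `δ i` is `0` or `± w i` for all `i`, the
inequality for the F-curves with two parts of equal label `δ(S)` gives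
`2 D(w) ≥ D(w - δ) + D(w + δ) + 2 D(δ) - D(2 δ)`, because the corresponding number for a single mark is
zero.  If at most three of the `δ i` are not zero then `D(δ) = D(2 δ) = 0`; this applies if two light
labels are equal or one is the sum of two others, and then `w - δ` and `w + δ` have more zeros than
`w`.  If `I` is a set of light marks with sum zero, let `w_j` be the labels in which the labels in `I`
are multiplied by `2 ^ j`, and `E j = D(w_j) - D(w_j restricted to I) - D(w restricted to the rest)`.
The inequality says that `2 E j ≥ E (j + 1)`, and `E` is bounded, so that `E 0 ≥ 0`: the degree is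
superadditive.  Marks with label zero can be forgotten.  This reduces everything to reduced labels
with at least nine marks, as the F-conjecture is true for `n ≤ 8` (Larsen; Fedorchuk and Mellit;
starting files `NH46`).  For the groups of part 2 there are none, because there is no set of
`9 - max k 1` elements of `A` without nonempty subsets of sum zero and without elements that are the
sum of two others: this is checked by the kernel for all abelian groups (given by prime powers) with
an exhaustive search on bit masks.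

Curves.  An irreducible curve in `M̄_{0,n}` meets the interior of a unique stratum, and its class is
the sum of the classes of its projections to the factors `M̄_{0,q}` of the stratum; such a factor is
given by a partition of the marks in `q` parts.  The theorem is proved for all families `𝒞 q` of sets
of classes of curves in `M̄_{0,q}` which meet the interior, provided that they are closed under the
push-forward by the forgetful maps, for example the sums of classes of irreducible curves which meet
the interior, over any field, or all classes with the numerical properties `IsCurve`.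
-/

namespace Pool.Agent.Results.MP_23e236_ag.FiniteGroupLabels

open Finset Pool.Agent.NH37.FC Pool.Agent.NH37.SL Pool.Agent.NH37.MG

/-- `𝒞 q` is for all `q` a set of classes of curves in `M̄_{0,q}` which meet the interior, closed
under the push-forward by the forgetful maps `M̄_{0,q} → M̄_{0,s}`, `s ≥ 4`. -/
def IsFamily (𝒞 : (q : ℕ) → (Finset (Fin q) → ℝ) → (Fin q → ℝ) → Prop) : Prop :=
  (∀ q m ψ, 𝒞 q m ψ → IsCurve m ψ) ∧
    ∀ (q s : ℕ) (p : Fin s → Fin q), 4 ≤ s → Function.Injective p →
      ∀ m ψ, 𝒞 q m ψ → 𝒞 s (pushM p m) (pushPsi p m ψ)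

variable {A : Type*} [AddCommGroup A] {k n : ℕ}

/-- The degrees on the F-curves are nonnegative, for all labels `(X, a)`, `(Y, b)`, `(Z, c)` and the
complementary one of the four parts (`X`, `Y`, `Z` are disjoint sets of heavy marks); `σ` is the sum
of all labels. -/
structure IsUniversal (f : Finset (Fin k) → A → ℝ) (σ : A) : Prop where
  zero : f ∅ 0 = 0
  symm : ∀ X a, f Xᶜ (σ - a) = f X a
  ineq : ∀ X Y Z : Finset (Fin k), Disjoint X Y → Disjoint X Z → Disjoint Y Z → ∀ a b c : A,
    f X a + f Y b + f Z c + f (X ∪ Y ∪ Z) (a + b + c)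
      ≤ f (X ∪ Y) (a + b) + f (X ∪ Z) (a + c) + f (Y ∪ Z) (b + c)

/-- The mark `i` has the label `w i`; it is light if `x i` is empty, and heavy otherwise (in general
`x i` is a set of one element: the name of the heavy mark `i`). -/
def IsLabelling (x : Fin n → Finset (Fin k)) (w : Fin n → A) (σ : A) : Prop :=
  (∀ i j, i ≠ j → Disjoint (x i) (x j)) ∧ univ.biUnion x = univ ∧ ∑ i, w i = σ

/-- The divisor `∑ c S • δ_S - ∑ i, c {i} • ψ_i` where `c S` is the value of `f` at the set of heavy
marks in `S` and the sum of the labels in `S`. -/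
def labelDivisor (f : Finset (Fin k) → A → ℝ) (x : Fin n → Finset (Fin k)) (w : Fin n → A) :
    Finset (Fin n) → ℝ := fun S => f (S.biUnion x) (∑ i ∈ S, w i)

/-- All possible labels of the parts of an F-curve are the labels of the parts of a partition of the
marks in four nonempty parts. -/
def Plentiful (x : Fin n → Finset (Fin k)) (w : Fin n → A) : Prop :=
  ∀ (X Y Z : Finset (Fin k)) (a b c : A), Disjoint X Y → Disjoint X Z → Disjoint Y Z →
    ∃ U V W : Finset (Fin n), U.Nonempty ∧ V.Nonempty ∧ W.Nonempty ∧ (U ∪ V ∪ W)ᶜ.Nonempty ∧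
      Disjoint U V ∧ Disjoint U W ∧ Disjoint V W ∧ (U.biUnion x = X ∧ ∑ i ∈ U, w i = a) ∧
      (V.biUnion x = Y ∧ ∑ i ∈ V, w i = b) ∧ (W.biUnion x = Z ∧ ∑ i ∈ W, w i = c)

/-- Reduced labels: a minimal zero-sum sequence without equal elements in which no element is the sum
of two others. -/
def IsReduced (w : Fin n → A) : Prop :=
  (∀ I : Finset (Fin n), I.Nonempty → I ≠ univ → ∑ i ∈ I, w i ≠ 0) ∧ Function.Injective w ∧
    ∀ i j l, i ≠ j → i ≠ l → j ≠ l → w i + w j ≠ w l

/-- The bounds for the order of the group. -/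
def bound : ℕ → ℕ
  | 0 => 39
  | 1 => 39
  | 2 => 31
  | 3 => 26
  | 4 => 17
  | 5 => 11
  | 6 => 7
  | 7 => 3
  | _ => 0

theorem base : Base 8 := fun q h4 h8 b hb hbF m ψ hm =>
  (Pool.Agent.NH46.F8.final Pool.Agent.NH46.F8.eight).2 q q h4 h8 b hb hbF (fun i => {i})
    ⟨fun i => singleton_nonempty i, fun i j hij => disjoint_singleton.2 hij, by ext; simp⟩ m ψ hm

theorem toUni {f : Finset (Fin k) → A → ℝ} {σ : A} (h : IsUniversal f σ)
    (hb : ∃ M : ℝ, ∀ X a, |f X a| ≤ M) : U758.GW.Uni f univ σ :=
  ⟨h.zero, fun X _ a => by rw [← compl_eq_univ_sdiff]; exact h.symm X a,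
    fun X Y Z _ _ _ => h.ineq X Y Z, hb⟩

omit [AddCommGroup A] in
theorem bounded [Finite A] (f : Finset (Fin k) → A → ℝ) : ∃ M : ℝ, ∀ X a, |f X a| ≤ M := by
  obtain ⟨M, hM⟩ := (Set.finite_range fun p : Finset (Fin k) × A => |f p.1 p.2|).bddAbove
  exact ⟨M, fun X a => hM ⟨(X, a), rfl⟩⟩

/-- Strata. -/
theorem strata {f : Finset (Fin k) → A → ℝ} {σ : A}
    {𝒞 : (q : ℕ) → (Finset (Fin q) → ℝ) → (Fin q → ℝ) → Prop}
    (h : ∀ q, 4 ≤ q → ∀ (x : Fin q → Finset (Fin k)) (w : Fin q → A), U758.GW.Lab x w univ σ →
      ∀ m ψ, 𝒞 q m ψ → 0 ≤ U758.GW.Dg (U758.GW.co f x w) m ψ)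
    {x : Fin n → Finset (Fin k)} {w : Fin n → A} (hx : IsLabelling x w σ) :
    Nef 𝒞 (labelDivisor f x w) := by
  classical
  intro q B hq hB m ψ hm
  have hsum : ∀ S : Finset (Fin q), ∑ i ∈ S, ∑ l ∈ B i, w l = ∑ l ∈ S.biUnion B, w l := by
    intro S
    rw [sum_biUnion fun i _ j _ hij => hB.2.1 i j hij]
  have h1 := h q hq (fun i => (B i).biUnion x) (fun i => ∑ l ∈ B i, w l) ⟨?_, ?_, ?_⟩ m ψ hm
  · refine le_of_le_of_eq h1 ?_
    unfold U758.GW.Dg degree U758.GW.co labelDivisor
    simp only [singleton_biUnion, sum_singleton, hsum, biUnion_biUnion]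
  · intro i j hij
    rw [disjoint_biUnion_left]
    intro a ha
    rw [disjoint_biUnion_right]
    intro b hb
    exact hx.1 a b fun e => disjoint_left.1 (hB.2.1 i j hij) ha (e ▸ hb)
  · rw [← biUnion_biUnion, hB.2.2, hx.2.1]
  · rw [hsum, hB.2.2, hx.2.2]

theorem singles {q : ℕ} : IsPartition fun i : Fin q => ({i} : Finset (Fin q)) :=
  ⟨fun i => singleton_nonempty i, fun i j hij => disjoint_singleton.2 hij, by ext; simp⟩

/-- Four light marks for every label. -/
theorem plentiful_four {σ : A} {x : Fin n → Finset (Fin k)} {w : Fin n → A}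
    (hx : IsLabelling x w σ) (hp1 : ∀ i, (x i).card ≤ 1)
    (hp2 : ∀ a : A, ∃ i : Fin 4 → Fin n, Function.Injective i ∧ ∀ t, x (i t) = ∅ ∧ w (i t) = a) :
    Plentiful x w := by
  classical
  -- the heavy marks in `X`
  set P : Finset (Fin k) → Finset (Fin n) := fun X => univ.filter fun i => x i ≠ ∅ ∧ x i ⊆ X
    with hP
  have hPX : ∀ X, (P X).biUnion x = X := by
    intro X
    ext z
    rw [mem_biUnion]
    constructor
    · rintro ⟨i, hi, hz⟩
      exact (mem_filter.1 hi).2.2 hz
    · intro hz
      have : z ∈ univ.biUnion x := by rw [hx.2.1]; exact mem_univ z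
      obtain ⟨i, _, hi⟩ := mem_biUnion.1 this
      refine ⟨i, mem_filter.2 ⟨mem_univ i, ?_, ?_⟩, hi⟩
      · rintro e
        rw [e] at hi
        exact notMem_empty z hi
      · intro y hy
        have := card_le_one.1 (hp1 i) y hy z hi
        rw [this]
        exact hz
  have hPd : ∀ X Y, Disjoint X Y → Disjoint (P X) (P Y) := by
    intro X Y h
    rw [disjoint_left]
    intro i h1 h2
    obtain ⟨z, hz⟩ := nonempty_iff_ne_empty.2 (mem_filter.1 h1).2.1
    exact disjoint_left.1 h ((mem_filter.1 h1).2.2 hz) ((mem_filter.1 h2).2.2 hz)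
  have hlight : ∀ X i, x i = ∅ → i ∉ P X := fun X i hi h => (mem_filter.1 h).2.1 hi
  -- a set with a given label
  have hval : ∀ X a i, x i = ∅ → w i = a - ∑ l ∈ P X, w l →
      (insert i (P X)).biUnion x = X ∧ ∑ l ∈ insert i (P X), w l = a := by
    intro X a i h1 h2
    constructor
    · rw [biUnion_insert, h1, hPX, empty_union]
    · rw [sum_insert (hlight X i h1), h2, sub_add_cancel]
  -- an unused light mark
  have fresh : ∀ (a : A) (T : Finset (Fin n)), T.card ≤ 3 → ∃ i, i ∉ T ∧ x i = ∅ ∧ w i = a := by
    intro a T hT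
    obtain ⟨i, hi, h⟩ := hp2 a
    by_contra hn
    push Not at hn
    have h1 : univ.image i ⊆ T := by
      intro z hz
      obtain ⟨t, _, rfl⟩ := mem_image.1 hz
      by_contra hz
      exact hn (i t) hz (h t).1 (h t).2
    have h2 := card_le_card h1
    rw [card_image_of_injective _ hi, card_univ, Fintype.card_fin] at h2
    omega
  intro X Y Z a b c h1 h2 h3
  obtain ⟨i, _, i1, i2⟩ := fresh (a - ∑ l ∈ P X, w l) ∅ (by simp)
  obtain ⟨j, hj, j1, j2⟩ := fresh (b - ∑ l ∈ P Y, w l) {i} (by simp)
  obtain ⟨l, hl, l1, l2⟩ := fresh (c - ∑ l ∈ P Z, w l) {i, j}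
    (card_le_two.trans (by norm_num))
  obtain ⟨t, ht, t1, _⟩ := fresh 0 {i, j, l} card_le_three
  have hij : i ≠ j := fun e => hj (by rw [e]; exact mem_singleton_self _)
  have hil : i ≠ l := fun e => hl (by rw [e]; simp)
  have hjl : j ≠ l := fun e => hl (by rw [e]; simp)
  have ht' : t ≠ i ∧ t ≠ j ∧ t ≠ l := by
    simp only [mem_insert, mem_singleton, not_or] at ht
    exact ht
  have dis : ∀ X Y i j, x i = ∅ → x j = ∅ → i ≠ j → Disjoint X Y →
      Disjoint (insert i (P X)) (insert j (P Y)) := by
    intro X Y i j hi hj hij hXY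
    rw [disjoint_insert_left, disjoint_insert_right, mem_insert, not_or]
    exact ⟨⟨hij, hlight Y i hi⟩, hlight X j hj, hPd X Y hXY⟩
  refine ⟨insert i (P X), insert j (P Y), insert l (P Z), insert_nonempty _ _, insert_nonempty _ _,
    insert_nonempty _ _, ⟨t, ?_⟩, dis X Y i j i1 j1 hij h1, dis X Z i l i1 l1 hil h2,
    dis Y Z j l j1 l1 hjl h3, hval X a i i1 i2, hval Y b j j1 j2, hval Z c l l1 l2⟩
  rw [mem_compl, mem_union, mem_union, mem_insert, mem_insert, mem_insert]
  have a1 := hlight X t t1
  have a2 := hlight Y t t1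
  have a3 := hlight Z t t1
  tauto

/-- Divisors with plentiful labels. -/
theorem universal {f : Finset (Fin k) → A → ℝ} {σ : A} {x : Fin n → Finset (Fin k)}
    {w : Fin n → A} (hx : IsLabelling x w σ) (hp : Plentiful x w)
    (hd : IsDivisor (labelDivisor f x w)) (hF : FNef (labelDivisor f x w)) : IsUniversal f σ := by
  classical
  have q0 : ∀ (S : Finset (Fin n)) (X : Finset (Fin k)) (a : A), S.biUnion x = X →
      ∑ i ∈ S, w i = a → labelDivisor f x w S = f X a := by
    intro S X a s1 s2
    unfold labelDivisor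
    rw [s1, s2]
  refine ⟨?_, fun X a => ?_, fun X Y Z h1 h2 h3 a b c => ?_⟩
  · have := hd.1
    unfold labelDivisor at this
    rwa [biUnion_empty, sum_empty] at this
  · obtain ⟨U, _, _, _, _, _, _, _, _, _, ⟨u1, u2⟩, _, _⟩ := hp X ∅ ∅ a 0 0
      (disjoint_empty_right _) (disjoint_empty_right _) (disjoint_empty_right _)
    have h3 := hd.2 U
    rw [q0 U X a u1 u2] at h3
    rw [← h3]
    have hlab : U758.GW.Lab x w univ σ := hx
    unfold labelDivisor
    rw [hlab.compl, hlab.sum_compl, u1, u2, ← compl_eq_univ_sdiff]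
  · obtain ⟨U, V, W, nU, nV, nW, nT, dUV, dUW, dVW, ⟨u1, u2⟩, ⟨v1, v2⟩, ⟨w1, w2⟩⟩ :=
      hp X Y Z a b c h1 h2 h3
    have key := hF U V W (U ∪ V ∪ W)ᶜ nU nV nW nT dUV dUW
      (disjoint_compl_right.mono_left (subset_union_left.trans subset_union_left)) dVW
      (disjoint_compl_right.mono_left (subset_union_right.trans subset_union_left))
      (disjoint_compl_right.mono_left subset_union_right) (union_compl _)
    have e1 : labelDivisor f x w (U ∪ (U ∪ V ∪ W)ᶜ) = labelDivisor f x w (V ∪ W) := by
      rw [← hd.2 (V ∪ W)]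
      congr 1
      ext z
      have a1 : z ∈ U → z ∉ V := fun h' => disjoint_left.1 dUV h'
      have a2 : z ∈ U → z ∉ W := fun h' => disjoint_left.1 dUW h'
      simp only [mem_union, mem_compl]
      tauto
    rw [e1, hd.2] at key
    have lab2 : ∀ (S T : Finset (Fin n)) (X Y : Finset (Fin k)) (a b : A),
        S.biUnion x = X → ∑ i ∈ S, w i = a → T.biUnion x = Y → ∑ i ∈ T, w i = b → Disjoint S T →
        (S ∪ T).biUnion x = X ∪ Y ∧ ∑ i ∈ S ∪ T, w i = a + b := by
      intro S T X Y a b s1 s2 s3 s4 s5
      rw [union_biUnion, sum_union s5, s1, s2, s3, s4]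
      exact ⟨rfl, rfl⟩
    obtain ⟨p1, p2⟩ := lab2 U V X Y a b u1 u2 v1 v2 dUV
    obtain ⟨p3, p4⟩ := lab2 U W X Z a c u1 u2 w1 w2 dUW
    obtain ⟨p5, p6⟩ := lab2 V W Y Z b c v1 v2 w1 w2 dVW
    obtain ⟨p7, p8⟩ := lab2 (U ∪ V) W (X ∪ Y) Z (a + b) c p1 p2 w1 w2
      (disjoint_union_left.2 ⟨dUW, dVW⟩)
    rw [q0 _ _ _ u1 u2, q0 _ _ _ v1 v2, q0 _ _ _ w1 w2, q0 _ _ _ p1 p2, q0 _ _ _ p3 p4,
      q0 _ _ _ p5 p6, q0 _ _ _ p7 p8] at key
    exact key

/-- All labels equal to one. -/
theorem plentiful_one {m : ℕ} (hm : m ≠ 0) (hn : 3 * m < n) :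
    Plentiful (fun _ : Fin n => (∅ : Finset (Fin 0))) (fun _ => (1 : ZMod m)) := by
  classical
  have hrep : ∀ a : ZMod m, ∃ s : ℕ, 1 ≤ s ∧ s ≤ m ∧ (s : ZMod m) = a := by
    intro a
    have : NeZero m := ⟨hm⟩
    by_cases ha : a.val = 0
    · refine ⟨m, Nat.one_le_iff_ne_zero.2 hm, le_rfl, ?_⟩
      rw [ZMod.natCast_self, (ZMod.val_eq_zero a).1 ha]
    · exact ⟨a.val, by omega, (ZMod.val_lt a).le, ZMod.natCast_zmod_val a⟩
  intro X Y Z a b c _ _ _
  obtain ⟨s, s1, s2, s3⟩ := hrep a
  obtain ⟨t, t1, t2, t3⟩ := hrep b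
  obtain ⟨u, u1, u2, u3⟩ := hrep c
  have hcn : (univ : Finset (Fin n)).card = n := by rw [card_univ, Fintype.card_fin]
  obtain ⟨U, _, hU⟩ := exists_subset_card_eq (s := (univ : Finset (Fin n))) (n := s) (by omega)
  obtain ⟨V, hV, hV'⟩ := exists_subset_card_eq (s := Uᶜ) (n := t)
    (by rw [card_compl, Fintype.card_fin]; omega)
  have dUV : Disjoint U V := disjoint_compl_right.mono_right hV
  have hUV : (U ∪ V).card = s + t := by rw [card_union_of_disjoint dUV, hU, hV']
  obtain ⟨W, hW, hW'⟩ := exists_subset_card_eq (s := (U ∪ V)ᶜ) (n := u)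
    (by rw [card_compl, Fintype.card_fin]; omega)
  have dW : Disjoint (U ∪ V) W := disjoint_compl_right.mono_right hW
  have hUVW : (U ∪ V ∪ W).card = s + t + u := by rw [card_union_of_disjoint dW, hUV, hW']
  have hX : ∀ (X : Finset (Fin 0)) (S : Finset (Fin n)), S.biUnion (fun _ => (∅ : Finset (Fin 0))) = X :=
    fun X S => Subsingleton.elim _ _
  have hs : ∀ S : Finset (Fin n), ∑ i ∈ S, (1 : ZMod m) = (S.card : ZMod m) := fun S => by
    rw [sum_const, nsmul_eq_mul, mul_one]
  refine ⟨U, V, W, card_pos.1 (by omega), card_pos.1 (by omega), card_pos.1 (by omega),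
    card_pos.1 (by rw [card_compl, Fintype.card_fin]; omega), dUV,
    dW.mono_left subset_union_left, dW.mono_left subset_union_right, ⟨hX _ _, ?_⟩,
    ⟨hX _ _, ?_⟩, ⟨hX _ _, ?_⟩⟩
  · rw [hs, hU, s3]
  · rw [hs, hV', t3]
  · rw [hs, hW', u3]

/-- Small groups. -/
theorem small_groups {𝒞 : (q : ℕ) → (Finset (Fin q) → ℝ) → (Fin q → ℝ) → Prop} (h𝒞 : IsFamily 𝒞)
    (hfin : Finite A) (hA : (k ≤ 7 ∧ Nat.card A ≤ bound k) ∨
      ((∀ a : A, a + a = 0) ∧ Nat.card A < 2 ^ (9 - max k 1)))
    {f : Finset (Fin k) → A → ℝ} {σ : A} {x : Fin n → Finset (Fin k)}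
    {w : Fin n → A} (hx : IsLabelling x w σ) (hf : IsUniversal f σ) :
    IsDivisor (labelDivisor f x w) ∧ FNef (labelDivisor f x w) ∧ Nef 𝒞 (labelDivisor f x w) := by
  have hno : U758.GW.NoFree A (9 - max k 1) := by
    rcases hA with ⟨hk, hA⟩ | ⟨h2, hA⟩
    · refine U758.GW.noFree ?_
      interval_cases k <;> exact hA
    · exact U758.GW.noFree_two h2 hA
  have hU := toUni hf (bounded f)
  refine ⟨U758.GW.co_div hU hx, U758.GW.co_fnef hU hx, ?_⟩
  refine strata (U758.GW.crit hU h𝒞.1 h𝒞.2 base (fun q hq v hv hR => ?_)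
    fun q hq x w hl hR => ?_) hx
  · exact absurd (U758.GW.reduced_free (fun _ _ _ => disjoint_empty_left _) hR hq) hno
  · exact absurd (U758.GW.reduced_free hl.1 hR hq) hno

/-- **The F-conjecture for divisors given by functions on a finite abelian group.**

1. Let `A` be an abelian group, `f` a bounded function on `A` with `f 0 = 0`, `f (-a) = f a` and
   `f a + f b + f c + f (a + b + c) ≤ f (a + b) + f (a + c) + f (b + c)`.  The divisors of `f` on
   `M̄_{0,n}` are nef for all `n` and all labels `w` of the marks with sum zero if and only if their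
   degrees on the curves which meet the interior are nonnegative for the reduced labels with at least
   nine marks.
2. Let `A` be finite, `k ≤ 7` and `|A| ≤ bound k`, or `2 A = 0` and `|A| < 2 ^ (9 - max k 1)`.  Then for
   all `n` and all labels, with `k` heavy marks, the divisors of universal functions are F-nef and
   nef; and a divisor given by an arbitrary function `f` with plentiful labels is nef if it is F-nef.
3. The labels are plentiful if every element of `A` is the label of at least four light marks (and no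
   mark has several heavy names), and if all labels are `1` in `ℤ/m` and `n > 3 m`.  So for `m ≤ 39`,
   `m ∣ n` and `n > 3 m` an F-nef divisor on `M̄_{0,n}` whose coefficients at `δ_S` depend only on
   `|S|` modulo `m` is nef.

Here nef means nonnegative degree on all curves in all strata with classes in the sets `𝒞 q`. -/
theorem result {𝒞 : (q : ℕ) → (Finset (Fin q) → ℝ) → (Fin q → ℝ) → Prop} (h𝒞 : IsFamily 𝒞) :
    (∀ f : A → ℝ, f 0 = 0 → (∀ a, f (-a) = f a) → (∃ M : ℝ, ∀ a, |f a| ≤ M) →
      (∀ a b c, f a + f b + f c + f (a + b + c) ≤ f (a + b) + f (a + c) + f (b + c)) →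
      ((∀ (n : ℕ) (w : Fin n → A), ∑ i, w i = 0 → Nef 𝒞 fun S => f (∑ i ∈ S, w i)) ↔
        ∀ (q : ℕ) (w : Fin q → A), 9 ≤ q → ∑ i, w i = 0 → IsReduced w →
          ∀ m ψ, 𝒞 q m ψ → 0 ≤ degree (fun S => f (∑ i ∈ S, w i)) (fun i => {i}) m ψ)) ∧
    (Finite A → (k ≤ 7 ∧ Nat.card A ≤ bound k) ∨
        ((∀ a : A, a + a = 0) ∧ Nat.card A < 2 ^ (9 - max k 1)) →
      ∀ (f : Finset (Fin k) → A → ℝ) (σ : A) (n : ℕ) (x : Fin n → Finset (Fin k))
        (w : Fin n → A), IsLabelling x w σ →
        (IsUniversal f σ → IsDivisor (labelDivisor f x w) ∧ FNef (labelDivisor f x w) ∧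
          Nef 𝒞 (labelDivisor f x w)) ∧
        (Plentiful x w → IsDivisor (labelDivisor f x w) → FNef (labelDivisor f x w) →
          Nef 𝒞 (labelDivisor f x w)) ∧
        ((∀ i, (x i).card ≤ 1) → (∀ a : A, ∃ i : Fin 4 → Fin n, Function.Injective i ∧
          ∀ t, x (i t) = ∅ ∧ w (i t) = a) → Plentiful x w)) ∧
    ∀ (n m : ℕ), m ≤ 39 → m ∣ n → 3 * m < n → ∀ g : ZMod m → ℝ,
      IsDivisor (fun S : Finset (Fin n) => g S.card) → FNef (fun S : Finset (Fin n) => g S.card) →
        Nef 𝒞 (fun S : Finset (Fin n) => g S.card) := by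
  classical
  refine ⟨fun f hf0 hfe hfb hfi => ⟨fun h q w hq hw _ m ψ hm => ?_, fun h => ?_⟩,
    fun hfin hA => ?_, fun n m hm hmn hn g hd hF => ?_⟩
  · exact h q w hw q _ (by omega) singles m ψ hm
  · -- the criterion
    set F : Finset (Fin 0) → A → ℝ := fun _ a => f a with hF
    have hU : U758.GW.Uni F univ 0 := by
      refine ⟨hf0, fun X _ a => ?_, fun X Y Z _ _ _ _ _ _ a b c => hfi a b c, ?_⟩
      · simp only [hF, zero_sub, hfe]
      · obtain ⟨M, hM⟩ := hfb
        exact ⟨M, fun _ a => hM a⟩
    have hx0 : ∀ {q : ℕ} (x : Fin q → Finset (Fin 0)), x = fun _ => ∅ := fun x => by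
      funext i
      exact Subsingleton.elim _ _
    have hred : ∀ q, 9 ≤ q → ∀ (x : Fin q → Finset (Fin 0)) (w : Fin q → A), ∑ i, w i = 0 →
        U758.GW.Reduced x w → ∀ m ψ, 𝒞 q m ψ → 0 ≤ U758.GW.Dg (fun S => f (∑ i ∈ S, w i)) m ψ := by
      intro q hq x w hw hR m ψ hm
      rw [← U758.GW.degree_single]
      have hxe := hx0 x
      subst hxe
      exact h q w hq hw ⟨fun I h1 h2 => hR.zsf I h1 h2 fun _ _ => rfl,
        fun i j hij => by
          by_contra hne
          exact hR.inj i j hne rfl rfl hij,
        fun i j l h1 h2 h3 => hR.sf i j l h1 h2 h3 rfl rfl rfl⟩ m ψ hm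
    have key := U758.GW.crit hU h𝒞.1 h𝒞.2 base
      (fun q hq v hv hR m ψ hm => hred q hq _ v hv hR m ψ hm)
      (fun q hq x w hl hR m ψ hm => hred q hq x w hl.2.2 hR m ψ hm)
    intro n w hw
    exact strata key (x := fun _ => ∅) (w := w) ⟨fun _ _ _ => disjoint_empty_left _,
      Subsingleton.elim _ _, hw⟩
  · intro f σ n x w hx
    exact ⟨small_groups h𝒞 hfin hA hx,
      fun hp hd hF => (small_groups h𝒞 hfin hA hx (universal hx hp hd hF)).2.2,
      plentiful_four hx⟩
  · have hm0 : m ≠ 0 := by
      rintro rfl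
      rw [zero_dvd_iff] at hmn
      omega
    have : NeZero m := ⟨hm0⟩
    have hx : IsLabelling (fun _ : Fin n => (∅ : Finset (Fin 0))) (fun _ => (1 : ZMod m)) 0 := by
      refine ⟨fun _ _ _ => disjoint_empty_left _, Subsingleton.elim _ _, ?_⟩
      rw [sum_const, card_univ, Fintype.card_fin, nsmul_eq_mul, mul_one]
      exact (ZMod.natCast_eq_zero_iff n m).2 hmn
    have he : (fun S : Finset (Fin n) => g S.card)
        = labelDivisor (fun _ : Finset (Fin 0) => g) (fun _ => ∅) (fun _ => (1 : ZMod m)) := by
      funext S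
      unfold labelDivisor
      rw [sum_const, nsmul_eq_mul, mul_one]
    rw [he] at hd hF ⊢
    refine (small_groups (k := 0) h𝒞 inferInstance (Or.inl ⟨by norm_num, ?_⟩) hx
      (universal hx (plentiful_one hm0 hn) hd hF)).2.2
    rw [Nat.card_zmod]
    exact hm

end Pool.Agent.Results.MP_23e236_ag.FiniteGroupLabels
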