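import Pool.Agent.U901.FN.OneClass
import Pool.Agent.NH46.F8.Eight
import Pool.Agent.NH46.F8.Final

set_option autoImplicit false

/-!
# The F-conjecture for divisors with interchangeable marks and monotone degrees

A divisor on `M̄_{0,n}` is given by its coefficients `c S` (`IsDivisor`: `c ∅ = 0`, `c Sᶜ = c S`; the
degree on the F-curve with the parts `A, B, C, D` is
`c (A ∪ B) + c (A ∪ C) + c (B ∪ C) - c A - c B - c C - c D`).  Two marks `x`, `y` are interchangeable
for a divisor if it is invariant under the transposition `(x y)`.  Let `H` be a set of marks, and let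
the other marks be divided in `r` classes of interchangeable marks.

The file `InterchangeableMarks` proves that an F-nef divisor is nef if its degree is nonnegative on
the strata with at least nine parts in which no two parts without marks of `H` have the same numbers of
marks of each class, and none has as many as two others together.  For symmetric divisors this settles
`n ≤ 80`.

Here the degrees on the F-curves with two single marks of one class are supposed to be monotone for the
small sets (`MonoDeg c H κ s`): the degree on the F-curve `A, {x}, {y}, rest` does not decrease if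
marks are moved from the rest to the set `A`, for the sets `A` with less than `s` marks, as long as a
mark of `H` remains in the rest (if `H` is empty, more than `|A|` marks; if there is only one class it
is required only if marks of `H` or more than `|A|` marks are moved).

Theorem.  Under this hypothesis an F-nef divisor is nef if its degree is nonnegative on the strata
with at least nine parts which in addition have no two parts without marks of `H` with at most `s`
marks that meet the same class.  There are no such strata, so the F-conjecture holds for the divisor,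
if the number of marks outside `H` is less than `(9 - |H| - r) (s + 1) + r`, and for one class if it is
at most `(8 - |H|) (s + 1) + (8 - |H|) (7 - |H|) / 2`.

For a symmetric divisor `c S = f |S|` the hypothesis is an inequality between the second differences of
`f`, and the divisor is nef for `n ≤ 8 s + 36` marks.

Proof.  If two parts without marks of `H` and with at most `s` marks meet the same class, in the marks
`x` and `y`, then the degree on a curve in the stratum is at least the average of the degrees on the
images of the curve in the two strata for which `x` is moved to the part of `y` or `y` to the part of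
`x`: the difference is a sum of differences of degrees on F-curves `A, {x}, {y}, rest`.  The sum of
the squares of the numbers of marks in the parts grows in the average.
-/

namespace Pool.Agent.Results.MP_23e236_ag.MonotoneInterchangeable

open Finset Pool.Agent.NH37.FC Pool.Agent.NH37.SL Pool.Agent.NH37.MF Pool.Agent.NH37.MG
open Pool.Agent.U901.FN

/-- `𝒞 q` is for all `q` a set of classes of curves in `M̄_{0,q}` which meet the interior, closed
under the push-forward by the forgetful maps `M̄_{0,q} → M̄_{0,s}`, `s ≥ 4`. -/
def IsFamily (𝒞 : (q : ℕ) → (Finset (Fin q) → ℝ) → (Fin q → ℝ) → Prop) : Prop :=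
  (∀ q m ψ, 𝒞 q m ψ → IsCurve m ψ) ∧
    ∀ (q s : ℕ) (p : Fin s → Fin q), 4 ≤ s → Function.Injective p →
      ∀ m ψ, 𝒞 q m ψ → 𝒞 s (pushM p m) (pushPsi p m ψ)

/-- **The F-conjecture for divisors with interchangeable marks and monotone degrees.**

Let `c` be an F-nef divisor on `M̄_{0,n}` for which the marks of each class of `κ` which are not in `H`
are interchangeable, and let its degrees be monotone in the sense of `MonoDeg c H κ s`.
1. `c` is nef if and only if it has nonnegative degree on the curves in the strata with at least nine
   parts which are reduced (`Reduced κ H s`).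
2. `c` is nef if `max 1 |H| + r ≤ 8` and there are less than `(9 - |H| - r) (s + 1) + r` marks
   outside `H`.
3. `c` is nef if there is only one class, `|H| ≤ 7` and there are at most
   `(8 - |H|) (s + 1) + (8 - |H|) (7 - |H|) / 2` marks outside `H`.
4. A symmetric F-nef divisor `c S = f |S|` is nef if `n ≤ 8 s + 36` and
   `f (b + 2) - 2 f (b + 1) + f b ≤ f (a + 2) - 2 f (a + 1) + f a` for all `a < s` and all `b` with
   `2 a < b < n - 2 - a`.
Here nef means nonnegative degree on all curves in all strata with classes in the sets `𝒞 q`. -/
theorem result {𝒞 : (q : ℕ) → (Finset (Fin q) → ℝ) → (Fin q → ℝ) → Prop} (h𝒞 : IsFamily 𝒞) :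
    (∀ {n r s : ℕ} {H : Finset (Fin n)} {κ : Fin n → Fin r} {c : Finset (Fin n) → ℝ},
      IsDivisor c → FNef c → (∀ x ∉ H, ∀ y ∉ H, κ x = κ y → Exch c {x} {y}) →
      MonoDeg c H κ s →
      (Nef 𝒞 c ↔ ∀ (q : ℕ) (B : Fin q → Finset (Fin n)), 9 ≤ q → IsPartition B →
        Reduced κ H s B → ∀ m ψ, 𝒞 q m ψ → 0 ≤ degree c B m ψ) ∧
      (max 1 H.card + r ≤ 8 → Hᶜ.card < (9 - H.card - r) * (s + 1) + r → Nef 𝒞 c) ∧
      (r = 1 → H.card ≤ 7 →
        2 * Hᶜ.card ≤ 2 * (8 - H.card) * (s + 1) + (8 - H.card) * (7 - H.card) → Nef 𝒞 c)) ∧
    (∀ (n s : ℕ) (f : ℕ → ℝ), n ≤ 8 * s + 36 →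
      IsDivisor (fun S : Finset (Fin n) => f S.card) →
      FNef (fun S : Finset (Fin n) => f S.card) →
      (∀ a b : ℕ, a < s → 2 * a < b → a + b + 2 < n →
        f (b + 2) - 2 * f (b + 1) + f b ≤ f (a + 2) - 2 * f (a + 1) + f a) →
      Nef 𝒞 (fun S : Finset (Fin n) => f S.card)) := by
  have hN : Base 8 := fun q h4 h8 b hb hbF m ψ hm =>
    (Pool.Agent.NH46.F8.final Pool.Agent.NH46.F8.eight).2 q q h4 h8 b hb hbF (fun i => {i})
      ⟨fun i => singleton_nonempty i, fun i j hij => disjoint_singleton.2 hij, by ext; simp⟩ m ψ hm
  have key : ∀ {n r s : ℕ} {H : Finset (Fin n)} {κ : Fin n → Fin r} {c : Finset (Fin n) → ℝ},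
      IsDivisor c → FNef c → (∀ x ∉ H, ∀ y ∉ H, κ x = κ y → Exch c {x} {y}) →
      MonoDeg c H κ s →
      (Nef 𝒞 c ↔ ∀ (q : ℕ) (B : Fin q → Finset (Fin n)), 9 ≤ q → IsPartition B →
        Reduced κ H s B → ∀ m ψ, 𝒞 q m ψ → 0 ≤ degree c B m ψ) ∧
      (max 1 H.card + r ≤ 8 → Hᶜ.card < (9 - H.card - r) * (s + 1) + r → Nef 𝒞 c) ∧
      (r = 1 → H.card ≤ 7 →
        2 * Hᶜ.card ≤ 2 * (8 - H.card) * (s + 1) + (8 - H.card) * (7 - H.card) → Nef 𝒞 c) := by
    intro n r s H κ c hc hF hκ hM
    have hcr := criterionN (by norm_num) hN hc hF h𝒞.1 h𝒞.2 hκ hM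
    refine ⟨hcr, fun h1 h2 => hcr.2 fun q B hq hB hR => ?_, ?_⟩
    · exact absurd hR (case_monoN hB hq h1 h2)
    · rintro rfl h1 h2
      exact hcr.2 fun q B hq hB hR => absurd hR (case_one hB hq h1 h2)
  refine ⟨key, fun n s f hn hc hF hf => ?_⟩
  refine (key (H := ∅) (κ := fun _ => (0 : Fin 1)) (s := s) hc hF ?_ ?_).2.2 rfl (by simp) ?_
  · intro x _ y _ _
    refine ⟨rfl, fun U h1 h2 => ?_⟩
    show f _ = f _
    rw [card_union_of_disjoint h1, card_union_of_disjoint h2, card_singleton, card_singleton]
  · intro A V x y _ _ hxy _ _ hA hxA hyA hV h1 h2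
    have hdisj1 : Disjoint A V := (disjoint_union_right.1 hV).1.symm
    have hdisj2 : Disjoint V {x, y} := (disjoint_union_right.1 hV).2
    have hxV : x ∉ V := disjoint_right.1 hdisj2 (by simp)
    have hyV : y ∉ V := disjoint_right.1 hdisj2 (by simp)
    have hAV : A.card < V.card := by
      rcases h1 with h | h | h
      · exact absurd h (by norm_num)
      · simp at h
      · exact h
    have hrest : A.card < (A ∪ V ∪ {x, y})ᶜ.card := by
      rcases h2 with h | h
      · simp at h
      · exact h.2
    have g : ∀ S : Finset (Fin n), x ∉ S → y ∉ S →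
        fdeg (fun S : Finset (Fin n) => f S.card) S {x} {y} =
          f 2 - 2 * f 1 - (f (S.card + 2) - 2 * f (S.card + 1) + f S.card) := by
      intro S hx hy
      have c1 : (S ∪ {x}).card = S.card + 1 := by
        rw [card_union_of_disjoint (disjoint_singleton_right.2 hx), card_singleton]
      have c2 : (S ∪ {y}).card = S.card + 1 := by
        rw [card_union_of_disjoint (disjoint_singleton_right.2 hy), card_singleton]
      have c3 : (({x} : Finset (Fin n)) ∪ {y}).card = 2 := by
        rw [card_union_of_disjoint (disjoint_singleton.2 hxy), card_singleton, card_singleton]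
      have c4 : (S ∪ {x} ∪ {y}).card = S.card + 2 := by
        rw [card_union_of_disjoint, c1, card_singleton]
        rw [disjoint_singleton_right, mem_union, mem_singleton]
        rintro (h | h)
        · exact hy h
        · exact hxy h.symm
      unfold fdeg
      simp only [c1, c2, c3, c4, card_singleton]
      ring
    have hcU : (A ∪ V).card = A.card + V.card := card_union_of_disjoint hdisj1
    have hcU2 : (A ∪ V ∪ {x, y}).card = A.card + V.card + 2 := by
      rw [card_union_of_disjoint, hcU, card_pair hxy]
      rw [disjoint_union_left]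
      refine ⟨?_, hdisj2⟩
      rw [disjoint_insert_right, disjoint_singleton_right]
      exact ⟨hxA, hyA⟩
    have hcc : (A ∪ V ∪ {x, y})ᶜ.card = n - (A.card + V.card + 2) := by
      rw [card_compl, hcU2, Fintype.card_fin]
    rw [g A hxA hyA, g (A ∪ V) (by simp [hxA, hxV]) (by simp [hyA, hyV]), hcU]
    have := hf A.card (A.card + V.card) hA (by omega) (by omega)
    linarith
  · rw [compl_empty, card_univ, Fintype.card_fin, card_empty]
    omega

end Pool.Agent.Results.MP_23e236_ag.MonotoneInterchangeable
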